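import Mathlib

set_option autoImplicit false

namespace Pool.Agent.N417.Scheme

/-- `ι` exhibits the vertices of `H` as vertices of `G`, and `P` is an `H`-scheme in `G`: for every
edge `uv` of `H` a path `P u v` in `G` from `u` to `v` (read backwards it is `P v u`), such that

1. `P u v` contains no vertex of `H` besides `u` and `v`;
2. whenever the paths of the edges in a nonempty set `S` of edges of `H` have a common vertex,
   the edges in `S` have a common end. -/
structure IsScheme {W V : Type} (H : SimpleGraph W) (G : SimpleGraph V) (ι : W ↪ V)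
    (P : ∀ u v : W, H.Adj u v → G.Walk (ι u) (ι v)) : Prop where
  isPath : ∀ u v (h : H.Adj u v), (P u v h).IsPath
  symm : ∀ u v (h : H.Adj u v), P v u h.symm = (P u v h).reverse
  inner : ∀ u v (h : H.Adj u v) (w : W), ι w ∈ (P u v h).support → w = u ∨ w = v
  star : ∀ (x : V) (S : Set (Sym2 W)), S.Nonempty →
    (∀ e ∈ S, ∃ (u v : W) (h : H.Adj u v), e = s(u, v) ∧ x ∈ (P u v h).support) →
    ∃ z : W, ∀ e ∈ S, z ∈ e

/-- `G` contains an `H`-scheme, the inclusion of the vertex sets being `ι`. -/
def ContainsScheme {W V : Type} (H : SimpleGraph W) (G : SimpleGraph V) (ι : W ↪ V) : Prop :=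
  ∃ P : ∀ u v : W, H.Adj u v → G.Walk (ι u) (ι v), IsScheme H G ι P

/-- `G` has an `H`-minor: pairwise disjoint connected vertex sets `C v`, one for each vertex `v`
of `H`, such that `G` has an edge between `C u` and `C v` for each edge `uv` of `H`. -/
def HasMinor {W V : Type} (H : SimpleGraph W) (G : SimpleGraph V) : Prop :=
  ∃ C : W → Set V, (∀ v, (G.induce (C v)).Connected) ∧
    (∀ u v, u ≠ v → Disjoint (C u) (C v)) ∧
    ∀ u v, H.Adj u v → ∃ x ∈ C u, ∃ y ∈ C v, G.Adj x y

/-- `H` is weakly contractible: every finite graph containing an `H`-scheme has an `H`-minor. -/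
def WeaklyContractible {W : Type} (H : SimpleGraph W) : Prop :=
  ∀ (V : Type) [Finite V] (G : SimpleGraph V) (ι : W ↪ V), ContainsScheme H G ι → HasMinor H G

end Pool.Agent.N417.Scheme
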