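import Mathlib
import Pool.Agent.N417.SchemeDefs

set_option autoImplicit false

namespace Pool.Agent.N417.WeakKn

open Finset Pool.Agent.N417.Scheme

/-- The graph on `Fin n × Bool` defined by bits. -/
def G {n : ℕ} (f : Sym2 (Fin n) → Bool) : SimpleGraph (Fin n × Bool) where
  Adj x y := x.1 ≠ y.1 ∧ f s(x.1, y.1) = (!x.2 && !y.2)
  symm := ⟨by
    rintro ⟨u, a⟩ ⟨v, b⟩ ⟨h1, h2⟩
    refine ⟨h1.symm, ?_⟩
    rw [Sym2.eq_swap]
    simp only at h2 ⊢
    rw [h2, Bool.and_comm]⟩
  loopless := ⟨by
    rintro ⟨u, a⟩ ⟨h1, _⟩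
    exact h1 rfl⟩

lemma adj_iff {n : ℕ} (f : Sym2 (Fin n) → Bool) (x y : Fin n × Bool) :
    (G f).Adj x y ↔ x.1 ≠ y.1 ∧ f s(x.1, y.1) = (!x.2 && !y.2) := Iff.rfl

/-! ### Counting lemma -/

/-- Each block of at most four bits excludes one pattern. -/
lemma count_blocks {P E : Type} [Fintype P] [DecidableEq P] [DecidableEq E]
    (D : E → Finset P) (g : E → P → Bool) (S : Finset E)
    (hcard : ∀ e ∈ S, (D e).card ≤ 4)
    (hdisj : ∀ e ∈ S, ∀ e' ∈ S, e ≠ e' → Disjoint (D e) (D e')) :
    16 ^ S.card * (univ.filter (fun f : P → Bool => ∀ e ∈ S, ∃ p ∈ D e, f p ≠ g e p)).card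
      ≤ 15 ^ S.card * 2 ^ (Fintype.card P) := by
  classical
  induction S using Finset.induction_on with
  | empty => simp
  | insert e0 S he0 ih =>
    have ih' := ih (fun e he => hcard e (mem_insert_of_mem he))
      (fun e he e' he' => hdisj e (mem_insert_of_mem he) e' (mem_insert_of_mem he'))
    set A := univ.filter (fun f : P → Bool => ∀ e ∈ S, ∃ p ∈ D e, f p ≠ g e p) with hA
    set B := univ.filter (fun f : P → Bool => ∀ e ∈ insert e0 S, ∃ p ∈ D e, f p ≠ g e p) with hB
    set M := A.filter (fun f => ∀ p ∈ D e0, f p = g e0 p) with hM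
    have hBA : B = A \ M := by
      ext f
      simp only [hA, hB, hM, mem_filter, mem_univ, true_and, mem_sdiff, mem_insert,
        forall_eq_or_imp]
      constructor
      · rintro ⟨⟨p, hp, hpne⟩, h2⟩
        exact ⟨h2, fun h => hpne (h.2 p hp)⟩
      · rintro ⟨h1, h2⟩
        refine ⟨?_, h1⟩
        by_contra hcon
        push Not at hcon
        exact h2 ⟨h1, hcon⟩
    have hMA : M ⊆ A := filter_subset _ _
    have hcardB : B.card = A.card - M.card := by rw [hBA, card_sdiff_of_subset hMA]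
    have hMle : M.card ≤ A.card := card_le_card hMA
    -- the key inequality
    have hkey : A.card ≤ 16 * M.card := by
      -- map A → M × (subsets of D e0)
      let upd : (P → Bool) → (P → Bool) := fun f p => if p ∈ D e0 then g e0 p else f p
      have hmaps : ∀ f ∈ A, upd f ∈ M := by
        intro f hf
        simp only [hA, hM, mem_filter, mem_univ, true_and] at hf ⊢
        refine ⟨?_, fun p hp => by simp [upd, hp]⟩
        intro e he
        obtain ⟨p, hp, hne⟩ := hf e he
        have hd := hdisj e (mem_insert_of_mem he) e0 (mem_insert_self _ _)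
          (fun h => he0 (h ▸ he))
        have hp0 : p ∉ D e0 := fun h => (Finset.disjoint_left.1 hd) hp h
        exact ⟨p, hp, by simpa [upd, hp0] using hne⟩
      have hfib : ∀ m ∈ M, (A.filter (fun f => upd f = m)).card ≤ 16 := by
        intro m _
        have h1 : (A.filter (fun f => upd f = m)).card ≤ ((D e0).powerset).card := by
          apply Finset.card_le_card_of_injOn (fun f => (D e0).filter (fun p => f p = true))
          · intro f _
            rw [Finset.mem_coe, Finset.mem_powerset]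
            exact filter_subset _ _
          · intro f1 h1 f2 h2 h12
            simp only [coe_filter, Set.mem_ofPred_eq, hA, mem_filter, mem_univ, true_and] at h1 h2
            funext p
            by_cases hp : p ∈ D e0
            · have := congrArg (fun s => p ∈ s) h12
              simp only [mem_filter, hp, true_and, eq_iff_iff] at this
              exact Bool.eq_iff_iff.2 this
            · have e1 := congrFun h1.2 p
              have e2 := congrFun h2.2 p
              simp only [upd, hp, if_false] at e1 e2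
              rw [e1, e2]
        refine h1.trans ?_
        rw [card_powerset]
        calc 2 ^ (D e0).card ≤ 2 ^ 4 :=
              Nat.pow_le_pow_right (by norm_num) (hcard e0 (mem_insert_self _ _))
          _ = 16 := by norm_num
      have := Finset.card_le_mul_card_image_of_maps_to hmaps 16 hfib
      linarith
    rw [card_insert_of_notMem he0, hcardB, pow_succ, pow_succ]
    have h3 : 16 * (A.card - M.card) ≤ 15 * A.card := by omega
    calc 16 ^ S.card * 16 * (A.card - M.card) = 16 ^ S.card * (16 * (A.card - M.card)) := by ring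
      _ ≤ 16 ^ S.card * (15 * A.card) := Nat.mul_le_mul_left _ h3
      _ = 15 * (16 ^ S.card * A.card) := by ring
      _ ≤ 15 * (15 ^ S.card * 2 ^ Fintype.card P) := Nat.mul_le_mul_left _ ih'
      _ = 15 ^ S.card * 15 * 2 ^ Fintype.card P := by ring

/-! ### Configurations -/

/-- The two points of the `i`-th pair. -/
def pr {n k : ℕ} (c : Fin k → (Fin n × Bool) × (Fin n × Bool)) (i : Fin k) :
    Finset (Fin n × Bool) := {(c i).1, (c i).2}

/-- Index-disjoint families of pairs. -/
def Good {n k : ℕ} (c : Fin k → (Fin n × Bool) × (Fin n × Bool)) : Prop :=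
  (∀ i, (c i).1 = (c i).2 ∨ (c i).1.1 ≠ (c i).2.1) ∧
  ∀ i j, i ≠ j → ∀ x ∈ pr c i, ∀ y ∈ pr c j, x.1 ≠ y.1

/-- the bits between the `i`-th and the `j`-th pair -/
def blk {n k : ℕ} (c : Fin k → (Fin n × Bool) × (Fin n × Bool)) (e : Fin k × Fin k) :
    Finset (Sym2 (Fin n)) :=
  (pr c e.1 ×ˢ pr c e.2).image (fun p => s(p.1.1, p.2.1))

open Classical in
/-- the pattern of nonadjacency -/
noncomputable def pat {n k : ℕ} (c : Fin k → (Fin n × Bool) × (Fin n × Bool)) (e : Fin k × Fin k)
    (z : Sym2 (Fin n)) : Bool :=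
  decide (∃ x ∈ pr c e.1, ∃ y ∈ pr c e.2, z = s(x.1, y.1) ∧ (x.2 || y.2) = true)

lemma eq_of_idx {n k : ℕ} {c : Fin k → (Fin n × Bool) × (Fin n × Bool)} (hc : Good c) {i : Fin k}
    {x y : Fin n × Bool} (hx : x ∈ pr c i) (hy : y ∈ pr c i) (h : x.1 = y.1) : x = y := by
  simp only [pr, mem_insert, mem_singleton] at hx hy
  rcases hc.1 i with h1 | h1
  · rcases hx with rfl | rfl <;> rcases hy with rfl | rfl <;> simp [h1]
  · rcases hx with rfl | rfl <;> rcases hy with rfl | rfl
    · rfl
    · exact absurd h h1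
    · exact absurd h.symm h1
    · rfl

lemma pat_eq {n k : ℕ} {c : Fin k → (Fin n × Bool) × (Fin n × Bool)} (hc : Good c)
    {e : Fin k × Fin k} (he : e.1 ≠ e.2) {x y : Fin n × Bool} (hx : x ∈ pr c e.1)
    (hy : y ∈ pr c e.2) : pat c e s(x.1, y.1) = (x.2 || y.2) := by
  unfold pat
  rw [Bool.eq_iff_iff, decide_eq_true_iff]
  constructor
  · rintro ⟨x', hx', y', hy', h1, h2⟩
    rw [Sym2.eq_iff] at h1
    rcases h1 with ⟨h3, h4⟩ | ⟨h3, h4⟩
    · rw [eq_of_idx hc hx hx' h3, eq_of_idx hc hy hy' h4]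
      exact h2
    · exact absurd h3 (hc.2 e.1 e.2 he x hx y' hy')
  · intro h
    exact ⟨x, hx, y, hy, rfl, h⟩

lemma blk_card {n k : ℕ} (c : Fin k → (Fin n × Bool) × (Fin n × Bool)) (e : Fin k × Fin k) :
    (blk c e).card ≤ 4 := by
  unfold blk
  refine card_image_le.trans ?_
  rw [card_product]
  have h1 : ∀ i, (pr c i).card ≤ 2 := fun i => card_le_two
  calc _ ≤ 2 * 2 := Nat.mul_le_mul (h1 _) (h1 _)
    _ = 4 := rfl

lemma blk_disj {n k : ℕ} {c : Fin k → (Fin n × Bool) × (Fin n × Bool)} (hc : Good c)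
    {e e' : Fin k × Fin k} (he : e.1 < e.2) (he' : e'.1 < e'.2) (hne : e ≠ e') :
    Disjoint (blk c e) (blk c e') := by
  rw [Finset.disjoint_left]
  intro z hz hz'
  simp only [blk, mem_image, mem_product, Prod.exists] at hz hz'
  obtain ⟨x1, x2, y1, y2, ⟨hx, hy⟩, rfl⟩ := hz
  obtain ⟨x1', x2', y1', y2', ⟨hx', hy'⟩, h⟩ := hz'
  have key : ∀ i j (x y : Fin n × Bool), x ∈ pr c i → y ∈ pr c j → x.1 = y.1 → i = j := by
    intro i j x y hx hy h
    by_contra hij
    exact hc.2 i j hij x hx y hy h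
  rw [Sym2.eq_iff] at h
  rcases h with ⟨h3, h4⟩ | ⟨h3, h4⟩
  · exact hne (Prod.ext (key _ _ _ _ hx hx' h3.symm) (key _ _ _ _ hy hy' h4.symm))
  · have h5 := key _ _ _ _ hy hx' h3.symm
    have h6 := key _ _ _ _ hx hy' h4.symm
    rw [← h5, ← h6] at he'
    exact lt_asymm he he'

lemma card_lt_pairs (k : ℕ) :
    (univ.filter (fun e : Fin k × Fin k => e.1 < e.2)).card = k.choose 2 := by
  have h1 : (univ.filter (fun e : Fin k × Fin k => e.1 < e.2)).card =
      ∑ j : Fin k, (j : ℕ) := by
    rw [card_filter, Fintype.sum_prod_type_right]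
    refine Finset.sum_congr rfl (fun j _ => ?_)
    rw [← card_filter]
    have : (univ.filter (fun x : Fin k => x < j)) = Finset.Iio j := by ext; simp
    rw [this, Fin.card_Iio]
  rw [h1, Fin.sum_univ_eq_sum_range (fun i => i) k, Finset.sum_range_id, Nat.choose_two_right]

open Classical in
/-- The counting bound for one good configuration. -/
lemma count_good {n k : ℕ} {c : Fin k → (Fin n × Bool) × (Fin n × Bool)} (hc : Good c) :
    16 ^ (k.choose 2) * (univ.filter (fun f : Sym2 (Fin n) → Bool =>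
      ∀ i j, i < j → ∃ x ∈ pr c i, ∃ y ∈ pr c j, (G f).Adj x y)).card
      ≤ 15 ^ (k.choose 2) * 2 ^ (Fintype.card (Sym2 (Fin n))) := by
  classical
  have h := count_blocks (blk c) (pat c) (univ.filter (fun e : Fin k × Fin k => e.1 < e.2))
    (fun e _ => blk_card c e) (fun e he e' he' hne => blk_disj hc (by simpa using he)
      (by simpa using he') hne)
  rw [card_lt_pairs] at h
  refine le_trans (Nat.mul_le_mul_left _ (card_le_card ?_)) h
  intro f hf
  simp only [mem_filter, mem_univ, true_and] at hf ⊢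
  intro e he
  obtain ⟨x, hx, y, hy, hadj⟩ := hf e.1 e.2 he
  refine ⟨s(x.1, y.1), ?_, ?_⟩
  · exact mem_image.2 ⟨(x, y), mem_product.2 ⟨hx, hy⟩, rfl⟩
  · rw [pat_eq hc (ne_of_lt he) hx hy, hadj.2]
    rcases x with ⟨x1, x2⟩
    rcases y with ⟨y1, y2⟩
    cases x2 <;> cases y2 <;> simp

/-! ### From a minor to a configuration -/

lemma exists_config {n k : ℕ} (hk : 12 * k ≤ n) (f : Sym2 (Fin n) → Bool)
    (hm : HasMinor (⊤ : SimpleGraph (Fin n)) (G f)) :
    ∃ c : Fin k → (Fin n × Bool) × (Fin n × Bool), Good c ∧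
      ∀ i j, i < j → ∃ x ∈ pr c i, ∃ y ∈ pr c j, (G f).Adj x y := by
  classical
  obtain ⟨C, hconn, hdisj, hadj⟩ := hm
  set B : Fin n → Finset (Fin n × Bool) := fun v => univ.filter (fun x => x ∈ C v) with hB
  have memB : ∀ v x, x ∈ B v ↔ x ∈ C v := fun v x => by simp [hB]
  have hBdisj : ∀ u v, u ≠ v → Disjoint (B u) (B v) := by
    intro u v huv
    rw [Finset.disjoint_left]
    intro x hx hy
    exact Set.disjoint_left.1 (hdisj u v huv) ((memB u x).1 hx) ((memB v x).1 hy)
  have hsum : ∑ v, (B v).card ≤ 2 * n := by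
    rw [← card_biUnion (fun u _ v _ huv => hBdisj u v huv)]
    calc _ ≤ (univ : Finset (Fin n × Bool)).card := card_le_card (subset_univ _)
      _ = 2 * n := by simp [Fintype.card_prod]; ring
  set T := univ.filter (fun v => (B v).card ≤ 2) with hT
  have hTc : n ≤ 3 * T.card := by
    have h1 : T.card + (univ.filter (fun v => ¬ (B v).card ≤ 2)).card = n := by
      rw [hT, card_filter_add_card_filter_not]
      simp
    have h2 : 3 * (univ.filter (fun v => ¬ (B v).card ≤ 2)).card ≤ ∑ v, (B v).card := by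
      calc 3 * (univ.filter (fun v => ¬ (B v).card ≤ 2)).card
          = ∑ v ∈ univ.filter (fun v => ¬ (B v).card ≤ 2), 3 := by
            rw [sum_const, smul_eq_mul, mul_comm]
        _ ≤ ∑ v ∈ univ.filter (fun v => ¬ (B v).card ≤ 2), (B v).card := by
            apply sum_le_sum
            intro v hv
            simp only [mem_filter, mem_univ, true_and] at hv
            omega
        _ ≤ _ := sum_le_sum_of_subset (filter_subset _ _)
    omega
  -- the two points
  have hpts : ∀ v, ∃ p : (Fin n × Bool) × (Fin n × Bool), v ∈ T →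
      (B v = {p.1, p.2} ∧ (p.1 = p.2 ∨ p.1.1 ≠ p.2.1)) := by
    intro v
    by_cases hv : v ∈ T
    · have hv2 : (B v).card ≤ 2 := by simpa [hT] using hv
      obtain ⟨⟨x0, hx0⟩⟩ := (hconn v).nonempty
      have hx0B : x0 ∈ B v := (memB v x0).2 hx0
      have hpos : 0 < (B v).card := card_pos.2 ⟨x0, hx0B⟩
      rcases (by omega : (B v).card = 1 ∨ (B v).card = 2) with h1 | h2
      · obtain ⟨a, ha⟩ := card_eq_one.1 h1
        exact ⟨(a, a), fun _ => ⟨by simp [ha], Or.inl rfl⟩⟩
      · obtain ⟨a, b, hab, hBab⟩ := card_eq_two.1 h2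
        refine ⟨(a, b), fun _ => ⟨hBab, Or.inr ?_⟩⟩
        have haC : a ∈ C v := (memB v a).1 (by simp [hBab])
        have hbC : b ∈ C v := (memB v b).1 (by simp [hBab])
        have : Nontrivial (C v) := ⟨⟨⟨a, haC⟩, ⟨b, hbC⟩, fun h => hab (congrArg Subtype.val h)⟩⟩
        obtain ⟨z, hz⟩ := (hconn v).preconnected.exists_adj_of_nontrivial ⟨a, haC⟩
        have hzadj : (G f).Adj a z.1 := hz
        have hzB : z.1 ∈ B v := (memB v z.1).2 z.2
        rw [hBab, mem_insert, mem_singleton] at hzB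
        rcases hzB with h | h
        · rw [h] at hzadj
          exact absurd hzadj (SimpleGraph.irrefl _)
        · rw [h] at hzadj
          exact hzadj.1
    · exact ⟨Classical.choice ⟨((⟨v, false⟩ : Fin n × Bool), (⟨v, false⟩ : Fin n × Bool))⟩,
        fun h => absurd h hv⟩
  choose q hq using hpts
  -- conflict
  let conf : Fin n → Fin n → Prop := fun u v => ∃ a ∈ B u, ∃ b ∈ B v, a.1 = b.1
  let fam := T.powerset.filter (fun M => ∀ u ∈ M, ∀ v ∈ M, u ≠ v → ¬ conf u v)
  have hfam : fam.Nonempty := ⟨∅, by simp [fam]⟩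
  obtain ⟨M, hM, hmax⟩ := exists_max_image fam card hfam
  have hMT : M ⊆ T := by
    have := (mem_filter.1 hM).1
    exact mem_powerset.1 this
  have hMp := (mem_filter.1 hM).2
  have hcov : ∀ u ∈ T, ∃ m ∈ M, conf u m := by
    intro u hu
    by_contra hcon
    push Not at hcon
    have hBne : (B u).Nonempty := by
      obtain ⟨⟨x0, hx0⟩⟩ := (hconn u).nonempty
      exact ⟨x0, (memB u x0).2 hx0⟩
    have huM : u ∉ M := by
      intro h
      obtain ⟨x0, hx0⟩ := hBne
      exact hcon u h ⟨x0, hx0, x0, hx0, rfl⟩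
    have h1 : insert u M ∈ fam := by
      rw [mem_filter, mem_powerset]
      refine ⟨insert_subset hu hMT, ?_⟩
      intro a ha b hb hab
      rw [mem_insert] at ha hb
      rcases ha with rfl | ha <;> rcases hb with rfl | hb
      · exact absurd rfl hab
      · exact hcon b hb
      · rintro ⟨x, hx, y, hy, hxy⟩
        exact hcon a ha ⟨y, hy, x, hx, hxy.symm⟩
      · exact hMp a ha b hb hab
    have h2 := hmax _ h1
    rw [card_insert_of_notMem huM] at h2
    omega
  have hTM : T.card ≤ 4 * M.card := by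
    have hch : ∀ u, ∃ r : Fin n × Bool × Bool, u ∈ T → (r.1 ∈ M ∧
        (((if r.2.1 = true then (q r.1).1 else (q r.1).2).1, r.2.2) : Fin n × Bool) ∈ B u) := by
      intro u
      by_cases hu : u ∈ T
      · obtain ⟨m, hm, a, ha, b, hb, hab⟩ := hcov u hu
        have hmT := hMT hm
        rw [(hq m hmT).1, mem_insert, mem_singleton] at hb
        rcases hb with hb | hb
        · refine ⟨(m, true, a.2), fun _ => ⟨hm, ?_⟩⟩
          simp only [if_true]
          rw [← hb, ← hab]
          exact ha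
        · refine ⟨(m, false, a.2), fun _ => ⟨hm, ?_⟩⟩
          simp only [Bool.false_eq_true, if_false]
          rw [← hb, ← hab]
          exact ha
      · exact ⟨(u, true, true), fun h => absurd h hu⟩
    choose r hr using hch
    have h1 : T.card ≤ (M ×ˢ ((univ : Finset Bool) ×ˢ (univ : Finset Bool))).card := by
      apply Finset.card_le_card_of_injOn r
      · intro u hu
        rw [Finset.mem_coe] at hu
        rw [Finset.mem_coe, mem_product]
        exact ⟨(hr u hu).1, mem_product.2 ⟨mem_univ _, mem_univ _⟩⟩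
      · intro u hu v hv huv
        rw [Finset.mem_coe] at hu hv
        by_contra hne
        have h3 := (hr u hu).2
        rw [huv] at h3
        exact Finset.disjoint_left.1 (hBdisj u v hne) h3 (hr v hv).2
    refine h1.trans ?_
    rw [card_product, card_product]
    simp
    omega
  have hkM : k ≤ M.card := by omega
  obtain ⟨emb⟩ : Nonempty (Fin k ↪ M) := by
    apply Function.Embedding.nonempty_of_card_le
    simpa using hkM
  have hprB : ∀ i, pr (fun i => q (emb i).1) i = B (emb i).1 := by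
    intro i
    unfold pr
    rw [(hq _ (hMT (emb i).2)).1]
  refine ⟨fun i => q (emb i).1, ⟨?_, ?_⟩, ?_⟩
  · intro i
    exact (hq _ (hMT (emb i).2)).2
  · intro i j hij x hx y hy hxy
    rw [hprB] at hx hy
    have hne : (emb i).1 ≠ (emb j).1 := by
      intro h
      exact hij (emb.injective (Subtype.ext h))
    exact hMp _ (emb i).2 _ (emb j).2 hne ⟨x, hx, y, hy, hxy⟩
  · intro i j hij
    have hne : (emb i).1 ≠ (emb j).1 := by
      intro h
      exact (ne_of_lt hij) (emb.injective (Subtype.ext h))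
    obtain ⟨x, hx, y, hy, hxy⟩ := hadj (emb i).1 (emb j).1 hne
    refine ⟨x, ?_, y, ?_, hxy⟩
    · rw [hprB]; exact (memB _ _).2 hx
    · rw [hprB]; exact (memB _ _).2 hy

/-- Some choice of the bits gives a graph without `K_n` minor. -/
lemma exists_bits {n k : ℕ} (hk : 12 * k ≤ n)
    (hnum : ((2 * n) ^ 2) ^ k * 15 ^ (k.choose 2) < 16 ^ (k.choose 2)) :
    ∃ f : Sym2 (Fin n) → Bool, ¬ HasMinor (⊤ : SimpleGraph (Fin n)) (G f) := by
  classical
  by_contra hcon
  push Not at hcon
  set bad : (Fin k → (Fin n × Bool) × (Fin n × Bool)) → Finset (Sym2 (Fin n) → Bool) :=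
    fun c => if Good c then univ.filter (fun f : Sym2 (Fin n) → Bool =>
      ∀ i j, i < j → ∃ x ∈ pr c i, ∃ y ∈ pr c j, (G f).Adj x y) else ∅ with hbad
  have hcov : (univ : Finset (Sym2 (Fin n) → Bool)) ⊆ univ.biUnion bad := by
    intro f _
    obtain ⟨c, hc, hf⟩ := exists_config hk f (hcon f)
    rw [mem_biUnion]
    refine ⟨c, mem_univ _, ?_⟩
    simp only [hbad, if_pos hc, mem_filter, mem_univ, true_and]
    exact hf
  have h1 : 2 ^ (Fintype.card (Sym2 (Fin n))) ≤ ∑ c, (bad c).card := by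
    calc 2 ^ (Fintype.card (Sym2 (Fin n))) = (univ : Finset (Sym2 (Fin n) → Bool)).card := by
          rw [card_univ, Fintype.card_fun]
          simp
      _ ≤ _ := (card_le_card hcov).trans card_biUnion_le
  have h2 : ∀ c, 16 ^ (k.choose 2) * (bad c).card
      ≤ 15 ^ (k.choose 2) * 2 ^ (Fintype.card (Sym2 (Fin n))) := by
    intro c
    by_cases hc : Good c
    · simp only [hbad, if_pos hc]
      exact count_good hc
    · simp [hbad, if_neg hc]
  have h3 : 16 ^ (k.choose 2) * 2 ^ (Fintype.card (Sym2 (Fin n))) ≤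
      ((2 * n) ^ 2) ^ k * 15 ^ (k.choose 2) * 2 ^ (Fintype.card (Sym2 (Fin n))) := by
    calc 16 ^ (k.choose 2) * 2 ^ (Fintype.card (Sym2 (Fin n)))
        ≤ 16 ^ (k.choose 2) * ∑ c, (bad c).card := Nat.mul_le_mul_left _ h1
      _ = ∑ c, 16 ^ (k.choose 2) * (bad c).card := by rw [mul_sum]
      _ ≤ ∑ _c : Fin k → (Fin n × Bool) × (Fin n × Bool),
            15 ^ (k.choose 2) * 2 ^ (Fintype.card (Sym2 (Fin n))) := sum_le_sum (fun c _ => h2 c)
      _ = _ := by
          rw [sum_const, card_univ, Fintype.card_fun, Fintype.card_prod, Fintype.card_prod,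
            Fintype.card_fin, Fintype.card_fin, Fintype.card_bool, smul_eq_mul]
          ring
  have h4 := Nat.le_of_mul_le_mul_right h3 (by positivity)
  omega

/-! ### The scheme -/

lemma scheme {n : ℕ} (f : Sym2 (Fin n) → Bool) :
    ContainsScheme (⊤ : SimpleGraph (Fin n)) (G f) ⟨fun u => (u, false), fun u v h => by
      simpa using h⟩ := by
  have a1 : ∀ u v : Fin n, u ≠ v → f s(u, v) = true → (G f).Adj (u, false) (v, false) :=
    fun u v h h' => ⟨h, by simp [h']⟩
  have a2 : ∀ u v : Fin n, u ≠ v → ¬ f s(u, v) = true → (G f).Adj (u, false) (v, true) :=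
    fun u v h h' => ⟨h, by simpa using h'⟩
  have a3 : ∀ u v : Fin n, u ≠ v → ¬ f s(u, v) = true → (G f).Adj (v, true) (u, true) :=
    fun u v h h' => ⟨h.symm, by rw [Sym2.eq_swap]; simpa using h'⟩
  have a4 : ∀ u v : Fin n, u ≠ v → ¬ f s(u, v) = true → (G f).Adj (u, true) (v, false) :=
    fun u v h h' => ⟨h, by simpa using h'⟩
  let P : ∀ u v : Fin n, (⊤ : SimpleGraph (Fin n)).Adj u v →
      (G f).Walk (u, false) (v, false) := fun u v h =>
    if hf : f s(u, v) = true then SimpleGraph.Walk.cons (a1 u v h hf) SimpleGraph.Walk.nil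
    else SimpleGraph.Walk.cons (a2 u v h hf) (SimpleGraph.Walk.cons (a3 u v h hf)
      (SimpleGraph.Walk.cons (a4 u v h hf) SimpleGraph.Walk.nil))
  have hsupp : ∀ u v (h : (⊤ : SimpleGraph (Fin n)).Adj u v) x, x ∈ (P u v h).support →
      x.1 = u ∨ x.1 = v := by
    intro u v h x hx
    by_cases hf : f s(u, v) = true
    · simp only [P, dif_pos hf, SimpleGraph.Walk.support_cons, SimpleGraph.Walk.support_nil,
        List.mem_cons, List.not_mem_nil, or_false] at hx
      rcases hx with rfl | rfl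
      · exact Or.inl rfl
      · exact Or.inr rfl
    · simp only [P, dif_neg hf, SimpleGraph.Walk.support_cons, SimpleGraph.Walk.support_nil,
        List.mem_cons, List.not_mem_nil, or_false] at hx
      rcases hx with rfl | rfl | rfl | rfl
      · exact Or.inl rfl
      · exact Or.inr rfl
      · exact Or.inl rfl
      · exact Or.inr rfl
  refine ⟨P, ?_, ?_, ?_, ?_⟩
  · intro u v h
    have huv : u ≠ v := h
    by_cases hf : f s(u, v) = true
    · rw [SimpleGraph.Walk.isPath_def]
      simp only [P, dif_pos hf, SimpleGraph.Walk.support_cons, SimpleGraph.Walk.support_nil]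
      have h1 : ((u, false) : Fin n × Bool) ≠ (v, false) := fun h => huv (congrArg Prod.fst h)
      change ([(u, false), (v, false)] : List (Fin n × Bool)).Nodup
      simp only [List.nodup_cons, List.mem_cons, List.not_mem_nil, or_false, not_or,
        List.nodup_nil, not_false_eq_true, and_true]
      exact h1
    · rw [SimpleGraph.Walk.isPath_def]
      simp only [P, dif_neg hf, SimpleGraph.Walk.support_cons, SimpleGraph.Walk.support_nil]
      have h1 : ((u, false) : Fin n × Bool) ≠ (v, true) := fun h => huv (congrArg Prod.fst h)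
      have h2 : ((u, false) : Fin n × Bool) ≠ (u, true) := fun h => by simpa using congrArg Prod.snd h
      have h3 : ((u, false) : Fin n × Bool) ≠ (v, false) := fun h => huv (congrArg Prod.fst h)
      have h4 : ((v, true) : Fin n × Bool) ≠ (u, true) :=
        fun h => huv.symm (congrArg Prod.fst h)
      have h5 : ((v, true) : Fin n × Bool) ≠ (v, false) := fun h => by simpa using congrArg Prod.snd h
      have h6 : ((u, true) : Fin n × Bool) ≠ (v, false) := fun h => huv (congrArg Prod.fst h)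
      change ([(u, false), (v, true), (u, true), (v, false)] : List (Fin n × Bool)).Nodup
      simp only [List.nodup_cons, List.mem_cons, List.not_mem_nil, or_false, not_or,
        List.nodup_nil, not_false_eq_true, and_true]
      exact ⟨⟨h1, h2, h3⟩, ⟨h4, h5⟩, h6⟩
  · intro u v h
    by_cases hf : f s(u, v) = true
    · have hf' : f s(v, u) = true := by rw [Sym2.eq_swap]; exact hf
      simp only [P, dif_pos hf, dif_pos hf']
      rfl
    · have hf' : ¬ f s(v, u) = true := by rw [Sym2.eq_swap]; exact hf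
      simp only [P, dif_neg hf, dif_neg hf']
      rfl
  · intro u v h w hw
    exact hsupp u v h _ hw
  · intro x S hS h
    refine ⟨x.1, fun e he => ?_⟩
    obtain ⟨u, v, huv, rfl, hx⟩ := h e he
    rcases hsupp u v huv x hx with h1 | h1
    · rw [h1]; exact Sym2.mem_mk_left u v
    · rw [h1]; exact Sym2.mem_mk_right u v

/-! ### The numerical inequality -/

lemma eventually_small : ∃ K : ℕ, ∀ k : ℕ, K ≤ k →
    (24 * (k + 1)) ^ 4 * 15 ^ (k - 1) < 16 ^ (k - 1) := by
  have h := tendsto_pow_const_mul_const_pow_of_abs_lt_one 4 (r := (15 / 16 : ℝ))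
    (by rw [abs_of_pos] <;> norm_num)
  have h2 := (h.const_mul (72 ^ 4 : ℝ))
  rw [mul_zero] at h2
  have h3 := h2.eventually (gt_mem_nhds (show (0 : ℝ) < 1 by norm_num))
  obtain ⟨N, hN⟩ := Filter.eventually_atTop.1 h3
  refine ⟨N + 2, fun k hk => ?_⟩
  obtain ⟨j, rfl⟩ : ∃ j, k = j + 1 := ⟨k - 1, by omega⟩
  have hj := hN j (by omega)
  have hj1 : 1 ≤ j := by omega
  rw [Nat.add_sub_cancel]
  have h4 : (24 * (j + 1 + 1)) ≤ 72 * j := by omega
  have h5 : (24 * (j + 1 + 1)) ^ 4 * 15 ^ j ≤ (72 * j) ^ 4 * 15 ^ j :=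
    Nat.mul_le_mul_right _ (Nat.pow_le_pow_left h4 4)
  refine lt_of_le_of_lt h5 ?_
  have h6 : (((72 * j) ^ 4 * 15 ^ j : ℕ) : ℝ) < ((16 ^ j : ℕ) : ℝ) := by
    push_cast
    rw [div_pow] at hj
    have h16 : (0 : ℝ) < 16 ^ j := by positivity
    have h7 : (72 : ℝ) ^ 4 * ((j : ℝ) ^ 4 * (15 ^ j / 16 ^ j)) = (72 * j) ^ 4 * 15 ^ j / 16 ^ j := by
      rw [mul_pow]; ring
    rw [h7, div_lt_one h16] at hj
    exact hj
  exact_mod_cast h6

lemma numeric : ∃ N : ℕ, ∀ n : ℕ, N ≤ n →
    ((2 * n) ^ 2) ^ (n / 12) * 15 ^ ((n / 12).choose 2) < 16 ^ ((n / 12).choose 2) := by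
  obtain ⟨K, hK⟩ := eventually_small
  refine ⟨12 * (K + 1), fun n hn => ?_⟩
  set k := n / 12 with hk
  have hkK : K ≤ k := by omega
  have hk1 : 1 ≤ k := by omega
  have h1 := hK k hkK
  have h2 : 2 * n ≤ 24 * (k + 1) := by omega
  have h3 : 2 * k.choose 2 = k * (k - 1) := by
    rw [Nat.choose_two_right]
    exact Nat.mul_div_cancel' (Nat.even_mul_pred_self k).two_dvd
  have h4 : ((24 * (k + 1)) ^ 4 * 15 ^ (k - 1)) ^ k < (16 ^ (k - 1)) ^ k :=
    Nat.pow_lt_pow_left h1 (by omega)
  have h5 : (((2 * n) ^ 2) ^ k * 15 ^ (k.choose 2)) ^ 2 < (16 ^ (k.choose 2)) ^ 2 := by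
    have e1 : (((2 * n) ^ 2) ^ k) ^ 2 = ((2 * n) ^ 4) ^ k := by
      rw [← pow_mul, ← pow_mul, ← pow_mul]
      congr 1
      ring
    have e2 : (15 ^ (k.choose 2)) ^ 2 = 15 ^ (2 * k.choose 2) := by
      rw [← pow_mul, mul_comm]
    calc (((2 * n) ^ 2) ^ k * 15 ^ (k.choose 2)) ^ 2
        = ((2 * n) ^ 4) ^ k * 15 ^ (2 * k.choose 2) := by rw [mul_pow, e1, e2]
      _ ≤ ((24 * (k + 1)) ^ 4) ^ k * 15 ^ (2 * k.choose 2) :=
          Nat.mul_le_mul_right _ (Nat.pow_le_pow_left (Nat.pow_le_pow_left h2 4) k)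
      _ = ((24 * (k + 1)) ^ 4 * 15 ^ (k - 1)) ^ k := by
          rw [h3, mul_pow ((24 * (k + 1)) ^ 4), ← pow_mul 15, mul_comm k (k - 1)]
      _ < (16 ^ (k - 1)) ^ k := h4
      _ = (16 ^ (k.choose 2)) ^ 2 := by rw [← pow_mul, ← pow_mul, mul_comm (k.choose 2), h3,
            mul_comm k]
  exact lt_of_pow_lt_pow_left₀ 2 (Nat.zero_le _) h5

/-- For all large `n` the complete graph `K_n` is not weakly contractible. -/
theorem main : ∃ N : ℕ, ∀ n : ℕ, N ≤ n → ¬ WeaklyContractible (⊤ : SimpleGraph (Fin n)) := by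
  obtain ⟨N, hN⟩ := numeric
  refine ⟨N, fun n hn hw => ?_⟩
  obtain ⟨f, hf⟩ := exists_bits (n := n) (k := n / 12) (by omega) (hN n hn)
  exact hf (hw _ (G f) _ (scheme f))

end Pool.Agent.N417.WeakKn
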